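import Pool.Agent.Helper54.MMPP

/-!
# Squared coefficient of variation of Markov-modulated Poisson processes

For every MMPP the event-stationary first event time `T` satisfies `Var T / (E T)² ≥ 1`.
-/

open Matrix MeasureTheory ProbabilityTheory Filter Topology
open Pool.Agent.Helper54

namespace Pool.Agent.Results.MP_af8c33_pr.SquaredCV

variable {p : ℕ} {M : MMPP p} {x : Fin p → ℝ}

theorem tendsto_exp_neg_div (K : ℝ) (hK : 0 < K) :
    Tendsto (fun t : ℝ => Real.exp (-(t / K))) atTop (𝓝 0) :=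
  Real.tendsto_exp_neg_atTop_nhds_zero.comp (tendsto_id.atTop_div_const hK)

theorem tendsto_mul_exp_neg_div (K : ℝ) (hK : 0 < K) :
    Tendsto (fun t : ℝ => t * Real.exp (-(t / K))) atTop (𝓝 0) := by
  have h1 := (Real.tendsto_pow_mul_exp_neg_atTop_nhds_zero 1).comp
    (tendsto_id.atTop_div_const hK)
  have h2 := h1.const_mul K
  rw [mul_zero] at h2
  refine h2.congr fun t => ?_
  simp only [Function.comp, id, pow_one]
  field_simp

/-- `F(t) = π e^{Ct} v`. -/
noncomputable def F (M : MMPP p) (x : Fin p → ℝ) (t : ℝ) : ℝ :=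
  x ⬝ᵥ (NormedSpace.exp (t • M.C) *ᵥ M.v)

theorem hasDerivAt_F (t : ℝ) : HasDerivAt (F M x) (-(M.survival x t)) t := by
  have h := hasDerivAt_bilin M.C x M.v t
  rw [M.C_mulVec_v, Matrix.mulVec_neg, dotProduct_neg] at h
  exact h

theorem eventStationary_nonneg (hx : M.IsStationary x) (i : Fin p) :
    0 ≤ M.eventStationary x i := by
  unfold MMPP.eventStationary
  rw [Pi.smul_apply, smul_eq_mul, MMPP.vecMul_D]
  exact mul_nonneg (inv_nonneg.mpr hx.rate_pos.le) (mul_nonneg (hx.1 i) (M.rate_nonneg i))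

theorem hasDerivAt_survival (hx : M.IsStationary x) (t : ℝ) :
    HasDerivAt (M.survival x)
      (-(((x ᵥ* M.D) ⬝ᵥ 1) * M.survival (M.eventStationary x) t)) t := by
  have h := hasDerivAt_bilin' M.C x 1 t
  rw [hx.vecMul_C, neg_dotProduct] at h
  have h2 : (x ᵥ* M.D ⬝ᵥ 1) * M.survival (M.eventStationary x) t =
      (x ᵥ* M.D) ⬝ᵥ NormedSpace.exp (t • M.C) *ᵥ 1 := by
    unfold MMPP.survival MMPP.eventStationary
    rw [smul_dotProduct, smul_eq_mul, ← mul_assoc, mul_inv_cancel₀ hx.rate_pos.ne', one_mul]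
  rw [h2]
  exact h

theorem F_zero : F M x 0 = x ⬝ᵥ M.v := by
  simp [F, NormedSpace.exp_zero]

theorem survival_zero (hx : M.IsStationary x) : M.survival x 0 = 1 := by
  simp only [MMPP.survival, zero_smul, NormedSpace.exp_zero, Matrix.one_mulVec]
  exact hx.dot_one

theorem tendsto_survival (hx : M.IsStationary x) :
    Tendsto (M.survival x) atTop (𝓝 0) := by
  obtain ⟨K, hK, A, hA, hdec⟩ := M.exists_survival_decay hx.1
  have h1 := (tendsto_exp_neg_div K hK).const_mul A
  rw [mul_zero] at h1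
  refine squeeze_zero' ?_ ?_ h1
  · filter_upwards [eventually_ge_atTop 0] with t ht using M.survival_nonneg hx.1 ht
  · filter_upwards [eventually_ge_atTop 0] with t ht using hdec t ht

theorem tendsto_mul_survival (hx : M.IsStationary x) :
    Tendsto (fun t => t * M.survival x t) atTop (𝓝 0) := by
  obtain ⟨K, hK, A, hA, hdec⟩ := M.exists_survival_decay hx.1
  have h1 := (tendsto_mul_exp_neg_div K hK).const_mul A
  rw [mul_zero] at h1
  refine squeeze_zero' ?_ ?_ h1
  · filter_upwards [eventually_ge_atTop 0] with t ht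
      using mul_nonneg ht (M.survival_nonneg hx.1 ht)
  · filter_upwards [eventually_ge_atTop 0] with t ht
    calc t * M.survival x t ≤ t * (A * Real.exp (-(t / K))) :=
          mul_le_mul_of_nonneg_left (hdec t ht) ht
      _ = A * (t * Real.exp (-(t / K))) := by ring

theorem tendsto_F (hx : M.IsStationary x) : Tendsto (F M x) atTop (𝓝 0) := by
  obtain ⟨K, hK, hdec⟩ := M.exists_decay hx.1
  have h1 := (tendsto_exp_neg_div K hK).mul_const (x ⬝ᵥ M.v)
  rw [zero_mul] at h1
  refine squeeze_zero' ?_ ?_ h1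
  · filter_upwards [eventually_ge_atTop 0] with t ht using M.bilin_nonneg hx.1 M.v_nonneg ht
  · filter_upwards [eventually_ge_atTop 0] with t ht using hdec t ht

theorem first_moment (hx : M.IsStationary x) :
    IntegrableOn (M.survival (M.eventStationary x)) (Set.Ioi 0) ∧
    ∫ t in Set.Ioi (0 : ℝ), M.survival (M.eventStationary x) t = ((x ᵥ* M.D) ⬝ᵥ 1)⁻¹ := by
  set r := (x ᵥ* M.D) ⬝ᵥ 1 with hr
  have hrpos : 0 < r := hx.rate_pos
  have hder : ∀ t, HasDerivAt (fun t => -(r⁻¹ * M.survival x t))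
      (M.survival (M.eventStationary x) t) t := by
    intro t
    have h := ((hasDerivAt_survival hx t).const_mul r⁻¹).neg
    rw [← hr] at h
    have e : -(r⁻¹ * -(r * M.survival (M.eventStationary x) t)) =
        M.survival (M.eventStationary x) t := by
      rw [mul_neg, neg_neg, ← mul_assoc, inv_mul_cancel₀ hrpos.ne', one_mul]
    rw [e] at h
    exact h
  have hlim : Tendsto (fun t => -(r⁻¹ * M.survival x t)) atTop (𝓝 0) := by
    have := ((tendsto_survival hx).const_mul r⁻¹).neg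
    simpa using this
  have hpos : ∀ t ∈ Set.Ioi (0 : ℝ), 0 ≤ M.survival (M.eventStationary x) t := fun t ht =>
    M.survival_nonneg (eventStationary_nonneg hx) (le_of_lt ht)
  constructor
  · exact integrableOn_Ioi_deriv_of_nonneg (hder 0).continuousAt.continuousWithinAt
      (fun t _ => hder t) hpos hlim
  · rw [integral_Ioi_of_hasDerivAt_of_nonneg (hder 0).continuousAt.continuousWithinAt
      (fun t _ => hder t) hpos hlim]
    rw [survival_zero hx]; ring

theorem second_moment (hx : M.IsStationary x) :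
    IntegrableOn (fun t => t * M.survival (M.eventStationary x) t) (Set.Ioi 0) ∧
    ∫ t in Set.Ioi (0 : ℝ), t * M.survival (M.eventStationary x) t =
      ((x ᵥ* M.D) ⬝ᵥ 1)⁻¹ * (x ⬝ᵥ M.v) := by
  set r := (x ᵥ* M.D) ⬝ᵥ 1 with hr
  have hrpos : 0 < r := hx.rate_pos
  have hder : ∀ t, HasDerivAt (fun t => -(r⁻¹ * (t * M.survival x t + F M x t)))
      (t * M.survival (M.eventStationary x) t) t := by
    intro t
    have h := ((((hasDerivAt_id t).mul (hasDerivAt_survival hx t)).add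
      (hasDerivAt_F (M := M) (x := x) t)).const_mul r⁻¹).neg
    rw [← hr] at h
    have e : -(r⁻¹ * (1 * M.survival x t + id t * -(r * M.survival (M.eventStationary x) t)
        + -(M.survival x t))) = t * M.survival (M.eventStationary x) t := by
      simp only [id]
      field_simp
      ring
    rw [e] at h
    exact h
  have hlim : Tendsto (fun t => -(r⁻¹ * (t * M.survival x t + F M x t))) atTop (𝓝 0) := by
    have := (((tendsto_mul_survival hx).add (tendsto_F hx)).const_mul r⁻¹).neg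
    simpa using this
  have hpos : ∀ t ∈ Set.Ioi (0 : ℝ), 0 ≤ t * M.survival (M.eventStationary x) t := fun t ht =>
    mul_nonneg (le_of_lt ht) (M.survival_nonneg (eventStationary_nonneg hx) (le_of_lt ht))
  constructor
  · exact integrableOn_Ioi_deriv_of_nonneg (hder 0).continuousAt.continuousWithinAt
      (fun t _ => hder t) hpos hlim
  · rw [integral_Ioi_of_hasDerivAt_of_nonneg (hder 0).continuousAt.continuousWithinAt
      (fun t _ => hder t) hpos hlim]
    rw [F_zero]; ring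

/-- **Q2 of MP_af8c33_pr, answered affirmatively.** For every Markov-modulated Poisson process,
with stationary distribution `x` of the background chain, `(x C 1)(x C⁻¹ 1) ≥ 1`; and every random
variable `T` with the law of the event-stationary inter-event time is square integrable, has
positive mean and squared coefficient of variation `Var T / (E T)² ≥ 1`. -/
theorem result (p : ℕ) (M : MMPP p) (x : Fin p → ℝ) (hx : M.IsStationary x) :
    1 ≤ (x ⬝ᵥ (M.C *ᵥ 1)) * (x ⬝ᵥ (M.C⁻¹ *ᵥ 1)) ∧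
    ∀ (Ω : Type*) [MeasurableSpace Ω] (P : Measure Ω) [IsProbabilityMeasure P] (T : Ω → ℝ),
      AEMeasurable T P → (∀ᵐ ω ∂P, 0 ≤ T ω) →
      (∀ t : ℝ, 0 ≤ t → P.real {ω | t < T ω} = M.survival (M.eventStationary x) t) →
      MemLp T 2 P ∧ 0 < ∫ ω, T ω ∂P ∧ 1 ≤ Var[T; P] / (∫ ω, T ω ∂P) ^ 2 := by
  have hkey := hx.key
  set r := (x ᵥ* M.D) ⬝ᵥ 1 with hr
  have hrpos : 0 < r := hx.rate_pos
  have e1 : x ⬝ᵥ (M.C *ᵥ 1) = -r := by
    rw [Matrix.dotProduct_mulVec, hx.vecMul_C, neg_dotProduct]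
  have e2 : x ⬝ᵥ (M.C⁻¹ *ᵥ 1) = -(x ⬝ᵥ M.v) := by
    rw [MMPP.v, dotProduct_neg, neg_neg]
  refine ⟨by rw [e1, e2, neg_mul_neg]; exact hkey, ?_⟩
  intro Ω _ P _ T hTm hT0 hTs
  obtain ⟨hi1, hI1⟩ := first_moment hx
  obtain ⟨hi2, hI2⟩ := second_moment hx
  rw [← hr] at hI1 hI2
  have hmeas : ∀ t ∈ Set.Ioi (0 : ℝ), P {ω | t < T ω} =
      ENNReal.ofReal (M.survival (M.eventStationary x) t) := by
    intro t ht
    rw [← hTs t (le_of_lt ht), ofReal_measureReal]
  -- first moment
  have hL1 : ∫⁻ ω, ENNReal.ofReal (T ω) ∂P = ENNReal.ofReal r⁻¹ := by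
    rw [lintegral_eq_lintegral_meas_lt P hT0 hTm,
      setLIntegral_congr_fun measurableSet_Ioi hmeas, ← hI1,
      ofReal_integral_eq_lintegral_ofReal hi1]
    filter_upwards [ae_restrict_mem measurableSet_Ioi] with t ht
      using M.survival_nonneg (eventStationary_nonneg hx) (le_of_lt ht)
  -- second moment
  have hL2 : ∫⁻ ω, ENNReal.ofReal (T ω ^ (2 : ℝ)) ∂P =
      ENNReal.ofReal (2 * (r⁻¹ * (x ⬝ᵥ M.v))) := by
    rw [lintegral_rpow_eq_lintegral_meas_lt_mul P hT0 hTm (by norm_num : (0 : ℝ) < 2)]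
    have h1 : ∫⁻ t in Set.Ioi (0 : ℝ), P {a | t < T a} * ENNReal.ofReal (t ^ ((2 : ℝ) - 1)) =
        ∫⁻ t in Set.Ioi (0 : ℝ), ENNReal.ofReal (t * M.survival (M.eventStationary x) t) := by
      refine setLIntegral_congr_fun measurableSet_Ioi fun t ht => ?_
      rw [hmeas t ht, ← ENNReal.ofReal_mul
        (M.survival_nonneg (eventStationary_nonneg hx) (le_of_lt ht))]
      congr 1
      have : (2 : ℝ) - 1 = 1 := by norm_num
      rw [this, Real.rpow_one, mul_comm]
    rw [h1, ENNReal.ofReal_mul (by norm_num : (0 : ℝ) ≤ 2), ← hI2,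
      ofReal_integral_eq_lintegral_ofReal hi2]
    filter_upwards [ae_restrict_mem measurableSet_Ioi] with t ht
      using mul_nonneg (le_of_lt ht)
        (M.survival_nonneg (eventStationary_nonneg hx) (le_of_lt ht))
  have hxv : 0 ≤ x ⬝ᵥ M.v := Finset.sum_nonneg fun i _ => mul_nonneg (hx.1 i) (M.v_nonneg i)
  have hE1 : ∫ ω, T ω ∂P = r⁻¹ := by
    rw [integral_eq_lintegral_of_nonneg_ae hT0 hTm.aestronglyMeasurable, hL1,
      ENNReal.toReal_ofReal (by positivity)]
  have hsq0 : 0 ≤ᵐ[P] fun ω => T ω ^ 2 := Eventually.of_forall fun ω => sq_nonneg _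
  have hL2' : ∫⁻ ω, ENNReal.ofReal (T ω ^ 2) ∂P = ENNReal.ofReal (2 * (r⁻¹ * (x ⬝ᵥ M.v))) := by
    rw [← hL2]
    refine lintegral_congr fun ω => ?_
    norm_cast
  have hE2 : ∫ ω, T ω ^ 2 ∂P = 2 * (r⁻¹ * (x ⬝ᵥ M.v)) := by
    rw [integral_eq_lintegral_of_nonneg_ae hsq0 (hTm.pow_const 2).aestronglyMeasurable, hL2',
      ENNReal.toReal_ofReal (by positivity)]
  have hint : Integrable (fun ω => T ω ^ 2) P := by
    refine ⟨(hTm.pow_const 2).aestronglyMeasurable, ?_⟩
    rw [hasFiniteIntegral_iff_ofReal hsq0, hL2']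
    exact ENNReal.ofReal_lt_top
  have hLp : MemLp T 2 P := (memLp_two_iff_integrable_sq hTm.aestronglyMeasurable).mpr hint
  refine ⟨hLp, by rw [hE1]; positivity, ?_⟩
  have hvar : Var[T; P] = 2 * (r⁻¹ * (x ⬝ᵥ M.v)) - r⁻¹ ^ 2 := by
    rw [variance_eq_sub hLp, hE1]
    congr 1
  rw [hE1, hvar, le_div_iff₀ (by positivity)]
  have h5 : 1 ≤ r * (x ⬝ᵥ M.v) := hkey
  have h6 : r⁻¹ * (x ⬝ᵥ M.v) = r⁻¹ ^ 2 * (r * (x ⬝ᵥ M.v)) := by
    field_simp
  rw [h6]
  have h7 : 0 < r⁻¹ ^ 2 := by positivity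
  nlinarith

end Pool.Agent.Results.MP_af8c33_pr.SquaredCV
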