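import Pool.Agent.Helper54.MMPP

/-!
# The conjectured stochastic order for Markov-modulated Poisson processes fails

We exhibit an MMPP of order 16 (a cyclic background chain with all jump rates equal to 4, event
rate 1 in eight consecutive states and 0 in the other eight states) for which
`P(T₁^π > 3) < P(T₁^α > 3)`.
-/

open Matrix MeasureTheory Filter Topology
open Pool.Agent.Helper54

namespace Pool.Agent.Results.MP_af8c33_pr.StochasticOrder

/-- The cyclic generator with jump rates 4 on 16 states. -/
def Q16 : Matrix (Fin 16) (Fin 16) ℝ :=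
  Matrix.of fun i j => if j = i then -4 else if j = i + 1 then 4 else 0

/-- Event rates: 1 in the states `0, …, 7` and 0 in the states `8, …, 15`. -/
def rate16 : Fin 16 → ℝ := fun i => if i.val < 8 then 1 else 0

theorem Q16_offdiag (i j : Fin 16) (h : i ≠ j) : 0 ≤ Q16 i j := by
  unfold Q16
  rw [Matrix.of_apply, if_neg (Ne.symm h)]
  split_ifs <;> norm_num

theorem Q16_step (i : Fin 16) : 0 < Q16 i (i + 1) := by
  unfold Q16
  rw [Matrix.of_apply, if_neg (by revert i; decide), if_pos rfl]
  norm_num

theorem Q16_mulVec (w : Fin 16 → ℝ) (i : Fin 16) : (Q16 *ᵥ w) i = 4 * w (i + 1) - 4 * w i := by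
  have h : ∀ j, Q16 i j * w j = (if j = i then -4 * w i else 0)
      + (if j = i + 1 then 4 * w (i + 1) else 0) := by
    intro j
    unfold Q16
    rw [Matrix.of_apply]
    have hne : i + 1 ≠ i := by revert i; decide
    by_cases h1 : j = i
    · subst h1
      rw [if_pos rfl, if_pos rfl, if_neg (Ne.symm hne), add_zero]
    · by_cases h2 : j = i + 1
      · subst h2
        rw [if_neg h1, if_neg h1, if_pos rfl, if_pos rfl, zero_add]
      · rw [if_neg h1, if_neg h1, if_neg h2, if_neg h2]; ring
  have : (Q16 *ᵥ w) i = ∑ j, Q16 i j * w j := rfl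
  rw [this, Finset.sum_congr rfl fun j _ => h j, Finset.sum_add_distrib, Finset.sum_ite_eq',
    Finset.sum_ite_eq', if_pos (Finset.mem_univ _), if_pos (Finset.mem_univ _)]
  ring

theorem Q16_row (i : Fin 16) : ∑ j, Q16 i j = 0 := by
  have h := Q16_mulVec (fun _ => 1) i
  have : (Q16 *ᵥ fun _ => (1 : ℝ)) i = ∑ j, Q16 i j := by
    simp [Matrix.mulVec, dotProduct]
  rw [this] at h
  rw [h]; ring

theorem Q16_col (j : Fin 16) : ∑ i, Q16 i j = 0 := by
  have h : ∀ i, Q16 i j = (if i = j then -4 else 0) + (if i = j - 1 then 4 else 0) := by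
    intro i
    unfold Q16
    rw [Matrix.of_apply]
    have hne : j ≠ j - 1 := by revert j; decide
    by_cases h3 : i = j
    · subst h3; rw [if_pos rfl, if_pos rfl, if_neg hne, add_zero]
    · rw [if_neg (Ne.symm h3), if_neg h3, zero_add]
      by_cases h4 : i = j - 1
      · rw [if_pos h4, if_pos (by rw [h4]; simp)]
      · rw [if_neg h4, if_neg (fun h5 => h4 (by rw [h5]; simp))]
  rw [Finset.sum_congr rfl fun i _ => h i, Finset.sum_add_distrib, Finset.sum_ite_eq',
    Finset.sum_ite_eq', if_pos (Finset.mem_univ _), if_pos (Finset.mem_univ _)]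
  ring

theorem reach : ∀ i j : Fin 16, ∃ k : Fin 16, (fun a : Fin 16 => a + 1)^[k.val] i = j := by
  decide +kernel

/-- The MMPP of order 16. -/
def chain : MMPP 16 where
  Q := Q16
  rate := rate16
  offdiag_nonneg := Q16_offdiag
  row_sum := Q16_row
  irreducible := by
    intro i j
    have h : ∀ k : ℕ, Relation.ReflTransGen (fun a b => 0 < Q16 a b) i
        ((fun a : Fin 16 => a + 1)^[k] i) := by
      intro k
      induction k with
      | zero => exact Relation.ReflTransGen.refl
      | succ k ih =>
        rw [Function.iterate_succ_apply']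
        exact ih.tail (Q16_step _)
    obtain ⟨k, hk⟩ := reach i j
    rw [← hk]
    exact h k.val
  rate_nonneg := by
    intro i; unfold rate16; split_ifs <;> norm_num
  rate_ne_zero := ⟨0, by unfold rate16; simp⟩

/-- The uniform distribution. -/
noncomputable def unif : Fin 16 → ℝ := fun _ => 1 / 16

theorem unif_stationary : chain.IsStationary unif := by
  refine ⟨fun i => by unfold unif; norm_num, by unfold unif; simp, ?_⟩
  ext j
  have : (unif ᵥ* chain.Q) j = (1 / 16) * ∑ i, Q16 i j := by
    simp only [Matrix.vecMul, dotProduct, unif, Finset.mul_sum]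
    rfl
  rw [this, Q16_col]; simp

/-- integer recursion for `(C + 5)^n 1` -/
def tab : List (List ℤ) := [
  [1, 1, 1, 1, 1, 1, 1, 1, 1, 1, 1, 1, 1, 1, 1, 1],
  [4, 4, 4, 4, 4, 4, 4, 4, 5, 5, 5, 5, 5, 5, 5, 5],
  [16, 16, 16, 16, 16, 16, 16, 20, 25, 25, 25, 25, 25, 25, 25, 21],
  [64, 64, 64, 64, 64, 64, 80, 100, 125, 125, 125, 125, 125, 125, 109, 85],
  [256, 256, 256, 256, 256, 320, 400, 500, 625, 625, 625, 625, 625, 561, 449, 341],
  [1024, 1024, 1024, 1024, 1280, 1600, 2000, 2500, 3125, 3125, 3125, 3125, 2869, 2357, 1813, 1365],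
  [4096, 4096, 4096, 5120, 6400, 8000, 10000, 12500, 15625, 15625, 15625, 14601, 12297, 9609, 7273, 5461],
  [16384, 16384, 20480, 25600, 32000, 40000, 50000, 62500, 78125, 78125, 74029, 63789, 50733, 38701, 29117, 21845],
  [65536, 81920, 102400, 128000, 160000, 200000, 250000, 312500, 390625, 374241, 329185, 266721, 205537, 155169, 116497, 87381],
  [327680, 409600, 512000, 640000, 800000, 1000000, 1250000, 1562500, 1887589, 1690981, 1396069, 1088869, 826213, 621157, 466021, 349525],
  [1638400, 2048000, 2560000, 3200000, 4000000, 5000000, 6250000, 7550356, 8651513, 7275257, 5751545, 4393721, 3310841, 2485241, 1864121, 1660245],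
  [8192000, 10240000, 12800000, 16000000, 20000000, 25000000, 30201424, 34606052, 37752541, 30281437, 23326429, 17637085, 13251805, 9941725, 8505101, 8213845],
  [40960000, 51200000, 64000000, 80000000, 100000000, 120805696, 138424208, 151010164, 158878289, 123587153, 93874769, 70644305, 53018705, 43962129, 41360481, 40981845],
  [204800000, 256000000, 320000000, 400000000, 483222784, 553696832, 604040656, 635513156, 653226901, 499086229, 376451989, 282719125, 228867221, 209404053, 205287861, 204821845],
  [1024000000, 1280000000, 1600000000, 1932891136, 2214787328, 2416162624, 2542052624, 2612907604, 2649571817, 2004894185, 1507328489, 1198188009, 1066483433, 1030555497, 1024575241, 1024021845],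
  [5120000000, 6400000000, 7731564544, 8859149312, 9664650496, 10168210496, 10451630416, 10598287268, 10669148557, 8034208141, 6300080525, 5464121741, 5188705421, 5128856461, 5120662621, 5120021845],
  [25600000000, 30926258176, 35436597248, 38658601984, 40672841984, 41806521664, 42393149072, 42676594228, 42805981121, 33234530241, 28156567489, 26218943425, 25704131265, 25611506945, 25600750001, 25600021845],
  [123705032704, 141746388992, 154634407936, 162691367936, 167226086656, 169572596288, 170706376912, 171223924484, 175744102085, 145860800197, 133032341189, 129035468485, 128150159045, 128014506949, 128000837381, 128000021845],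
  [566985555968, 618537631744, 650765471744, 668904346624, 678290385152, 682825507648, 684895697936, 702976408340, 759187302873, 677990164953, 649174215129, 641636104665, 640208186841, 640017856473, 640000924761, 622820152661],
  [2474150526976, 2603061886976, 2675617386496, 2713161540608, 2731302030592, 2739582791744, 2811905633360, 3036749211492, 3471147962685, 3274687025469, 3215718633789, 3202468852029, 3200279612733, 3200021555517, 3131281535405, 2890762376533],
  [10412247547904, 10702469545984, 10852646162432, 10925208122368, 10958331166976, 11247622533440, 12146996845968, 13884591850740, 16569896064561, 16137561560625, 16025594041905, 16003587302961, 16000365834801, 15725147697137, 14694331041537, 12787364484437],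
  [42809878183936, 43410584649728, 43700832489472, 43833324667904, 44990490133760, 48587987383872, 55538367402960, 66279584258244, 81120142307061, 80239937728245, 80039943253749, 80005050642165, 78900956623349, 74502471863285, 65843788979285, 54436354676053],
  [173642338598912, 174803329957888, 175333298671616, 179961960535040, 194351949535488, 222153469611840, 265118337032976, 324480569228244, 402079893220041, 400399710743241, 400060145822409, 395608877135561, 376910844076489, 337877627780425, 283589207683497, 225675867411797],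
  [699213319831552, 701333194686464, 719847842140160, 777407798141952, 888613878447360, 1060473348131904, 1297922276912976, 1608319572880164, 2003678736193005, 2000640294032877, 1982495654364653, 1903252253441517, 1728421355198189, 1472234458514413, 1186292677330685, 920245221807445],
  [2805332778745856, 2879391368560640, 3109631192567808, 3554455513789440, 4241893392527616, 5191689107651904, 6433278291520656, 8014714944772020, 10006239912324513, 9930622911491489, 9595504668130721, 8816937674234273, 7617359189255841, 6217405167837153, 4867273564560465, 3717098501133653],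
  [11517565474242560, 12438524770271232, 14217822055157760, 16967573570110464, 20766756430607616, 25733113166082624, 32058859779088080, 40024959649298052, 49728731558290469, 48312641584014373, 44863255365067813, 39286374431257637, 32486979860604453, 25686499426079013, 19735667569095077, 14938429616117077],
  [49754099081084928, 56871288220631040, 67870294280441856, 83067025722430464, 102932452664330496, 128235439116352320, 160099838597192208, 198914926233161876, 242979297894347961, 227765663044285625, 202008753090098361, 169234293873675449, 135232977564920505, 104629169702459321, 79489386033563385, 61008691513087317],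
  [227485152882524160, 271481177121767424, 332268102889721856, 411729810657321984, 512941756465409280, 640399354388768832, 795659704932647504, 971917191577391844, 1154041950071490461, 1035800675404679069, 878945928584800157, 710166204133357469, 553749656374757789, 422586713836712861, 323524152085912653, 260025087837427029],
  [1085924708487069696, 1329072411558887424, 1646919242629287936, 2051767025861637120, 2561597417555075328, 3182638819730590016, 3887668766309567376, 4616167800285961844, 5297244651690206737, 4551584389743879697, 3719610745118230033, 2925164829632388625, 2244096511721609233, 1716683322180363473, 1363624503435620769, 1169965699367523669],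
  [5316289646235549696, 6587676970517151744, 8207068103446548480, 10246389670220301312, 12730555278922360064, 15550675065238269504, 18464671201143847376, 21188978606760826948, 23503582210665725525, 19430027370216799829, 15420270063647784533, 11901550876518825557, 9110829800443063125, 7171181335922846549, 6043487300905715445, 5513664533315802453],
  [26350707882068606976, 32828272413786193920, 40985558680881205248, 50922221115689440256, 62202700260953078016, 73858684804575389504, 84755914427043307792, 94014328842662902100, 101223691691532924841, 81111107624807937961, 63026473569723086761, 48344870078291078057, 37795555144134449321, 31345130539545708329, 28098145434168925257, 26778823118258001237]]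

/-- entry of the table -/
def Y (n : ℕ) (i : Fin 16) : ℤ := (tab.getD n []).getD i.val 0

theorem Y_zero : ∀ i, Y 0 i = 1 := by decide

theorem Y_succ : ∀ n : Fin 30, ∀ i : Fin 16,
    Y (n.val + 1) i = 4 * Y n.val (i + 1) + (if i.val < 8 then 0 else Y n.val i) := by
  decide +kernel

/-- `B = C + 5`. -/
noncomputable def B : Matrix (Fin 16) (Fin 16) ℝ := chain.C + (5 : ℝ) • 1

theorem B_mulVec (w : Fin 16 → ℝ) (i : Fin 16) :
    (B *ᵥ w) i = 4 * w (i + 1) + (if i.val < 8 then 0 else w i) := by
  have h1 : (B *ᵥ w) i = (Q16 *ᵥ w) i - rate16 i * w i + 5 * w i := by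
    unfold B MMPP.C MMPP.D
    rw [Matrix.add_mulVec, Matrix.sub_mulVec, Matrix.smul_mulVec, Matrix.one_mulVec, Pi.add_apply,
      Pi.sub_apply, Matrix.mulVec_diagonal]
    rfl
  rw [h1, Q16_mulVec]
  unfold rate16
  split_ifs <;> ring

theorem B_pow_one (n : ℕ) (hn : n ≤ 30) (i : Fin 16) : ((B ^ n) *ᵥ 1) i = (Y n i : ℝ) := by
  induction n generalizing i with
  | zero => rw [pow_zero, Matrix.one_mulVec, Y_zero]; simp
  | succ n ih =>
    have hn' : n < 30 := by omega
    rw [pow_succ', ← Matrix.mulVec_mulVec, B_mulVec, ih (by omega), ih (by omega),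
      Y_succ ⟨n, hn'⟩ i]
    push_cast
    split_ifs <;> simp

/-- sign vector -/
def w : Fin 16 → ℝ := fun i => if i.val < 8 then 1 else -1

theorem B_pow_bound (n : ℕ) (i : Fin 16) : 0 ≤ ((B ^ n) *ᵥ 1) i ∧ ((B ^ n) *ᵥ 1) i ≤ 5 ^ n := by
  induction n generalizing i with
  | zero => simp
  | succ n ih =>
    rw [pow_succ', ← Matrix.mulVec_mulVec, B_mulVec]
    have h1 := ih (i + 1)
    have h2 := ih i
    have h5 : (0 : ℝ) ≤ 5 ^ n := by positivity
    split_ifs
    · constructor
      · linarith [h1.1]
      · rw [pow_succ]; linarith [h1.2]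
    · constructor
      · linarith [h1.1, h2.1]
      · rw [pow_succ]; linarith [h1.2, h2.2]

theorem w_dot_bound (n : ℕ) : -(16 * 5 ^ n) ≤ w ⬝ᵥ ((B ^ n) *ᵥ 1) := by
  have h1 : ∀ i ∈ Finset.univ, -(5 ^ n : ℝ) ≤ w i * ((B ^ n) *ᵥ 1) i := by
    intro i _
    have h := B_pow_bound n i
    unfold w
    split_ifs <;> linarith [h.1, h.2]
  have h2 := Finset.sum_le_sum h1
  simp only [Finset.sum_const, Finset.card_univ, Fintype.card_fin, nsmul_eq_mul] at h2
  have h3 : ((16 : ℕ) : ℝ) = 16 := by norm_num
  rw [h3] at h2
  unfold dotProduct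
  linarith

open scoped Matrix.Norms.Operator in
theorem hasSum_w : HasSum (fun n : ℕ => (3 ^ n / n.factorial : ℝ) * (w ⬝ᵥ ((B ^ n) *ᵥ 1)))
    (w ⬝ᵥ (NormedSpace.exp ((3 : ℝ) • B) *ᵥ 1)) := by
  have hs := NormedSpace.exp_series_hasSum_exp' (𝕂 := ℝ) ((3 : ℝ) • B)
  let L : Matrix (Fin 16) (Fin 16) ℝ →ₗ[ℝ] ℝ :=
    { toFun := fun A => w ⬝ᵥ (A *ᵥ 1)
      map_add' := fun A A' => by rw [Matrix.add_mulVec, dotProduct_add]
      map_smul' := fun c A => by
        rw [Matrix.smul_mulVec, dotProduct_smul]; rfl }
  have h2 := hs.mapL L.toContinuousLinearMap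
  have h3 : (fun n : ℕ => (3 ^ n / n.factorial : ℝ) * (w ⬝ᵥ ((B ^ n) *ᵥ 1))) =
      fun n : ℕ => L.toContinuousLinearMap ((n.factorial : ℝ)⁻¹ • ((3 : ℝ) • B) ^ n) := by
    ext n
    rw [smul_pow, map_smul, map_smul, smul_eq_mul, smul_eq_mul]
    have : L.toContinuousLinearMap (B ^ n) = w ⬝ᵥ ((B ^ n) *ᵥ 1) := rfl
    rw [this]
    ring
  rw [h3]
  exact h2

theorem exp_eq : NormedSpace.exp ((3 : ℝ) • chain.C) =
    Real.exp (-15) • NormedSpace.exp ((3 : ℝ) • B) := by
  have hdec : (3 : ℝ) • chain.C = (3 : ℝ) • B + (-15 : ℝ) • (1 : Matrix (Fin 16) (Fin 16) ℝ) := by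
    unfold B
    rw [smul_add, smul_smul, add_assoc, ← add_smul]
    norm_num
  have hcomm : Commute ((3 : ℝ) • B) ((-15 : ℝ) • (1 : Matrix (Fin 16) (Fin 16) ℝ)) :=
    (Commute.one_right _).smul_right _
  have hexp : NormedSpace.exp ((-15 : ℝ) • (1 : Matrix (Fin 16) (Fin 16) ℝ)) =
      Real.exp (-15) • (1 : Matrix (Fin 16) (Fin 16) ℝ) := by
    have : (-15 : ℝ) • (1 : Matrix (Fin 16) (Fin 16) ℝ) = Matrix.diagonal (fun _ => (-15 : ℝ)) := by
      ext i j
      simp [Matrix.diagonal_apply, Matrix.one_apply]
    rw [this, Matrix.exp_diagonal]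
    rw [← Matrix.diagonal_one, ← Matrix.diagonal_smul]
    congr 1
    ext k
    rw [Pi.exp_def]
    simp [Real.exp_eq_exp_ℝ]
  rw [hdec, Matrix.exp_add_of_commute _ _ hcomm, hexp, Matrix.mul_smul, mul_one]

/-- the integer sequence `w · B^n 1`. -/
def a (n : ℕ) : ℤ := ∑ i : Fin 16, (if i.val < 8 then 1 else -1) * Y n i

theorem w_dot_eq (n : ℕ) (hn : n ≤ 30) : w ⬝ᵥ ((B ^ n) *ᵥ 1) = (a n : ℝ) := by
  unfold dotProduct a w
  push_cast
  exact Finset.sum_congr rfl fun i _ => by rw [B_pow_one n hn]

/-- `30! / n!`. -/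
def cc (n : ℕ) : ℕ := (30 : ℕ).factorial / n.factorial

theorem cc_spec {n : ℕ} (hn : n ≤ 30) : n.factorial * cc n = (30 : ℕ).factorial :=
  Nat.mul_div_cancel' (Nat.factorial_dvd_factorial hn)

theorem numeric : (30 : ℕ).factorial * (16 * 27182818286 ^ 15) <
    10 ^ 150 * ∑ n ∈ Finset.range 30, (cc n : ℤ) * (3 ^ n * a n + 16 * 15 ^ n) := by
  decide +kernel

theorem w_exp_pos : 0 < w ⬝ᵥ (NormedSpace.exp ((3 : ℝ) • B) *ᵥ 1) := by
  have h1 := hasSum_w
  have h2 : HasSum (fun n : ℕ => (16 : ℝ) * (15 ^ n / n.factorial)) (16 * Real.exp 15) := by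
    have := NormedSpace.exp_series_hasSum_exp' (𝕂 := ℝ) (15 : ℝ)
    rw [← Real.exp_eq_exp_ℝ] at this
    have h3 := this.mul_left 16
    have h4 : (fun n : ℕ => (16 : ℝ) * (15 ^ n / n.factorial)) =
        fun i : ℕ => (16 : ℝ) * ((i.factorial : ℝ)⁻¹ • 15 ^ i) := by
      ext n; rw [smul_eq_mul]; ring
    rw [h4]
    exact h3
  have h3 := h1.add h2
  have h4 : ∑ n ∈ Finset.range 30, ((3 ^ n / n.factorial : ℝ) * (w ⬝ᵥ ((B ^ n) *ᵥ 1)) +
      16 * (15 ^ n / n.factorial)) ≤ w ⬝ᵥ (NormedSpace.exp ((3 : ℝ) • B) *ᵥ 1) +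
        16 * Real.exp 15 := by
    refine sum_le_hasSum _ (fun n _ => ?_) h3
    have h5 := w_dot_bound n
    have h6 : (0 : ℝ) ≤ 3 ^ n / n.factorial := by positivity
    have h7 : (16 : ℝ) * (15 ^ n / n.factorial) = (3 ^ n / n.factorial) * (16 * 5 ^ n) := by
      have : (15 : ℝ) ^ n = 3 ^ n * 5 ^ n := by rw [← mul_pow]; norm_num
      rw [this]; ring
    rw [h7, ← mul_add]
    exact mul_nonneg h6 (by linarith)
  have h5 : Real.exp 15 ≤ (27182818286 / 10 ^ 10 : ℝ) ^ 15 := by
    have e1 : Real.exp 15 = Real.exp 1 ^ 15 := by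
      rw [← Real.exp_nat_mul]; norm_num
    rw [e1]
    refine pow_le_pow_left₀ (Real.exp_pos _).le ?_ 15
    have := Real.exp_one_lt_d9
    linarith
  have h6 : ((30 : ℕ).factorial : ℝ) * ∑ n ∈ Finset.range 30,
      ((3 ^ n / n.factorial : ℝ) * (w ⬝ᵥ ((B ^ n) *ᵥ 1)) + 16 * (15 ^ n / n.factorial)) =
      ((∑ n ∈ Finset.range 30, (cc n : ℤ) * (3 ^ n * a n + 16 * 15 ^ n) : ℤ) : ℝ) := by
    rw [Finset.mul_sum]
    push_cast
    refine Finset.sum_congr rfl fun n hn => ?_
    have hn' : n ≤ 30 := (Finset.mem_range.mp hn).le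
    rw [w_dot_eq n hn', ← cc_spec hn']
    have : (n.factorial : ℝ) ≠ 0 := by positivity
    push_cast
    field_simp
  have h7 := numeric
  have h8 : ((30 : ℕ).factorial : ℝ) * (16 * 27182818286 ^ 15) <
      10 ^ 150 * (((30 : ℕ).factorial : ℝ) * ∑ n ∈ Finset.range 30,
      ((3 ^ n / n.factorial : ℝ) * (w ⬝ᵥ ((B ^ n) *ᵥ 1)) + 16 * (15 ^ n / n.factorial))) := by
    rw [h6]
    exact_mod_cast h7
  have hf : (0 : ℝ) < ((30 : ℕ).factorial : ℝ) := by positivity
  have h9 : (16 : ℝ) * 27182818286 ^ 15 < 10 ^ 150 * ∑ n ∈ Finset.range 30,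
      ((3 ^ n / n.factorial : ℝ) * (w ⬝ᵥ ((B ^ n) *ᵥ 1)) + 16 * (15 ^ n / n.factorial)) := by
    have : ((30 : ℕ).factorial : ℝ) * (16 * 27182818286 ^ 15) < ((30 : ℕ).factorial : ℝ) *
      (10 ^ 150 * ∑ n ∈ Finset.range 30,
      ((3 ^ n / n.factorial : ℝ) * (w ⬝ᵥ ((B ^ n) *ᵥ 1)) + 16 * (15 ^ n / n.factorial))) := by
      linarith [h8]
    exact lt_of_mul_lt_mul_left this hf.le
  have h10 : (27182818286 / 10 ^ 10 : ℝ) ^ 15 = 27182818286 ^ 15 / 10 ^ 150 := by
    rw [div_pow, ← pow_mul]
  rw [h10] at h5
  have h11 : (16 : ℝ) * (27182818286 ^ 15 / 10 ^ 150) < ∑ n ∈ Finset.range 30,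
      ((3 ^ n / n.factorial : ℝ) * (w ⬝ᵥ ((B ^ n) *ᵥ 1)) + 16 * (15 ^ n / n.factorial)) := by
    rw [← mul_div_assoc, div_lt_iff₀ (by positivity)]
    linarith [h9]
  linarith

/-- **Q1 of MP_af8c33_pr, answered negatively.** There are an MMPP (of order 16), with stationary
distribution `x` of the background chain, and a time `t ≥ 0` with
`P(T₁^π > t) < P(T₁^α > t)`. -/
theorem result : ∃ (p : ℕ) (M : MMPP p) (x : Fin p → ℝ), M.IsStationary x ∧
    ∃ t : ℝ, 0 ≤ t ∧ M.survival x t < M.survival (M.eventStationary x) t := by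
  refine ⟨16, chain, unif, unif_stationary, 3, by norm_num, ?_⟩
  have hD : ∀ i, (unif ᵥ* chain.D) i = (1 / 16) * rate16 i := by
    intro i; rw [MMPP.vecMul_D]; rfl
  have hsum : (unif ᵥ* chain.D) ⬝ᵥ 1 = 1 / 2 := by
    unfold dotProduct
    simp only [hD, rate16, Pi.one_apply, mul_one]
    rw [← Finset.mul_sum]
    have : ∑ i : Fin 16, (if i.val < 8 then (1 : ℝ) else 0) = 8 := by
      rw [Finset.sum_boole]
      have h : (Finset.univ.filter (fun i : Fin 16 => i.val < 8)).card = 8 := by decide
      rw [h]; norm_num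
    rw [this]; norm_num
  have hev : ∀ i, chain.eventStationary unif i = unif i + (1 / 16) * w i := by
    intro i
    unfold MMPP.eventStationary
    rw [Pi.smul_apply, hsum, hD]
    unfold rate16 unif w
    split_ifs <;> norm_num
  have hev' : chain.eventStationary unif = unif + (1 / 16 : ℝ) • w := by
    ext i; rw [hev]; simp
  unfold MMPP.survival
  rw [hev', add_dotProduct, smul_dotProduct, exp_eq, Matrix.smul_mulVec, dotProduct_smul,
    dotProduct_smul, smul_eq_mul, smul_eq_mul, smul_eq_mul]
  have h1 := w_exp_pos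
  have h2 := Real.exp_pos (-15)
  have h3 : 0 < (1 / 16 : ℝ) * (Real.exp (-15) * (w ⬝ᵥ (NormedSpace.exp ((3 : ℝ) • B) *ᵥ 1))) := by
    positivity
  linarith

end Pool.Agent.Results.MP_af8c33_pr.StochasticOrder
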